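import Pool.Agent.Lib.MP_12eaff_co.FC.Defs

set_option autoImplicit false
set_option linter.unusedSectionVars false

namespace Pool.Agent.Lib.MP_12eaff_co.FB

open Finset Pool.Agent.Lib.MP_12eaff_co.BK Pool.Agent.Lib.MP_12eaff_co.Acc2
open scoped Classical

variable {V : Type} [Fintype V] {G : SimpleGraph V} {D : ℕ}
variable {T : Tr G D} {Y W : Finset V} {q y r x z e r1 : V} {g : V → ℕ}

open Tr IsA

/-- A hidden neighbour that is not visited leaves one visited hidden neighbour at most. -/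
theorem IsC.Bd_one (h : IsC T) (hy : y ∈ T.R) (a : e ∈ T.Bd y) (b : e ∉ T.R) :
    (T.Bd y ∩ T.R).card ≤ 1 := by
  have := card_lt_card ((ssubset_iff_of_subset (inter_subset_left (s₁ := T.Bd y) (s₂ := T.R))).2
    ⟨e, a, fun k => b (mem_inter.1 k).2⟩)
  have := h.card_Bd hy
  omega

namespace Fam

theorem cardW2 (f : Fam T Y W q) : W.card = 2 * tw W := by
  have := f.cardW
  unfold tw
  split_ifs at this ⊢ <;> omega

/-- A twin other than the owner is not visited. -/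
theorem tw_late (f : Fam T Y W q) (a : e ∈ W) (n : e ≠ q) : e ∉ T.R := fun k =>
  disjoint_left.1 f.disj (f.vis e k (mem_union_right _ a) n).1 a

theorem tw_ne (f : Fam T Y W q) (m : q ∈ Y) (a : e ∈ W) : e ≠ q := fun k =>
  disjoint_left.1 f.disj m (k ▸ a)

theorem core_vis (h : IsC T) (f : Fam T Y W q) (hD : 14 ≤ D) (n : W ≠ ∅) (m : q ∈ Y) :
    Y ⊆ T.R := fun u k => by_contra fun c =>
  let ⟨a, a1, a2⟩ := f.twq h hD m n
  h.Bd_nadj f.hq (f.late_Bd (mem_sdiff.2 ⟨k, c⟩)) a2 (f.cl.join u k a a1)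

theorem e_real (h : IsC T) (f : Fam T Y W q) (hr : r ∈ T.R) (m : r ∈ Y ∪ W)
    (ne : r ≠ q) (np : T.p r ≠ q) (o : r ∈ T.O (T.p r)) : (Ch T r).card + i2 T r + Y.card +
      2 * tw W ≤ D + 5 + (T.Bd r ∩ T.R ∩ (Y ∪ W)).card := by
  obtain ⟨rY, -, rr, pH⟩ := f.vis r hr m ne
  have pH := pH.resolve_left np
  have := f.cardW2
  have := h.Ch_out hr rr o pH f.cl.real
  have := f.mem_out h rY
  have := f.Ch_K h hr
  have := h.Ch_clq hr rr o f.clq f.kreal (mem_insert_of_mem rY) (f.kout pH)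
    (f.kfar (T.p_mem r hr rr) pH)
  have : (T.Bd r ∩ T.R ∩ insert q Y).card ≤ (T.Bd r ∩ T.R ∩ (Y ∪ W)).card :=
    card_le_card (inter_subset_inter Subset.rfl (insert_subset f.mem subset_union_left))
  omega

theorem e_bd (h : IsC T) (f : Fam T Y W q) (hD : 14 ≤ D) (hr : r ∈ T.R) (m : r ∈ Y ∪ W)
    (ne : r ≠ q) : (T.Bd r ∩ T.R).card ≤ 2 ∧ (T.Bd r ∩ T.R ∩ (Y ∪ W)).card ≤ 1 ∧
      (T.Dr r ∩ (Y ∪ W)).card ≤ ((Y ∪ W) \ T.R).card ∧ (W ≠ ∅ → q ∈ Y →
        (T.Bd r ∩ T.R).card ≤ 1 ∧ T.Bd r ∩ T.R ∩ (Y ∪ W) = ∅ ∧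
          (T.Dr r ∩ (Y ∪ W)).card ≤ 1) := by
  have s : ∀ v ∈ T.Bd r ∩ T.R ∩ (Y ∪ W), v ∈ insert q Y := fun v k =>
    f.sub (mem_inter.1 (mem_inter.1 k).1).2 (mem_inter.1 k).2
  refine ⟨(card_le_card inter_subset_left).trans (h.card_Bd hr), (card_le_card fun v k =>
    mem_inter.2 ⟨(mem_inter.1 k).1, s v k⟩).trans (h.Bd_clq hr f.clq),
    card_le_card (f.Dr_late h hr), fun n p => ?_⟩
  obtain ⟨a, a1, a2⟩ := f.hid_tw h hD hr (f.vis r hr m ne).1 n
  refine ⟨h.Bd_one hr a2 (f.tw_late a1 (f.tw_ne p a1)), eq_empty_of_forall_notMem fun v k =>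
    h.Bd_nadj hr (mem_inter.1 (mem_inter.1 k).1).1 a2
      (f.cl.join v (by simpa [insert_eq_of_mem p] using s v k) a a1), ?_⟩
  have c : (T.Dr r ∩ (Y ∪ W)).card ≤ (W.erase a).card := card_le_card fun v k => by
    obtain ⟨k1, k2⟩ := mem_sdiff.1 (f.Dr_late h hr k)
    exact mem_erase.2 ⟨fun z => (IsB.mem_Bd.1 a2).2.1
      (z ▸ (IsB.mem_Dr.1 (mem_inter.1 k).1).1.2.2),
      (mem_union.1 k1).resolve_left fun z => k2 (f.core_vis h hD n p z)⟩
  have := card_erase_add_one a1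
  have := f.card_W
  omega

theorem q_bd (h : IsC T) (f : Fam T Y W q) (hD : 14 ≤ D) :
    (T.Bd q ∩ T.R).card + (T.Dr q ∩ (Y ∪ W)).card + (if Y ⊆ T.R then 0 else 1) ≤ 2 := by
  have l := f.drq h hD
  split_ifs at l with n
  · obtain ⟨a, a1, a2⟩ := f.twq h hD n.2 n.1
    have := h.Bd_one f.hq a2 (f.tw_late a1 (f.tw_ne n.2 a1))
    rw [if_pos (f.core_vis h hD n.1 n.2)]
    omega
  split_ifs with s
  · have := (card_le_card (inter_subset_left (s₂ := T.R))).trans (h.card_Bd f.hq)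
    omega
  · obtain ⟨u, u1, u2⟩ := not_subset.1 s
    have := h.Bd_one f.hq (f.late_Bd (mem_sdiff.2 ⟨u1, u2⟩)) u2
    omega

/-- the shape of the late set -/
theorem shape (h : IsC T) (f : Fam T Y W q) (hD : 14 ≤ D) :
    ((Y ∪ W) \ T.R).card = (if W = ∅ then 0 else if q ∈ Y then 2 else 1) +
      (if Y ⊆ T.R then 0 else 1) ∧ (W ≠ ∅ → q ∈ Y → Y ⊆ T.R) ∧
      (((Y ∪ W) \ T.R).filter (G.Adj q)).card + (if q ∈ Y then 0 else 1) ≤
        ((Y ∪ W) \ T.R).card := by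
  refine ⟨?_, f.core_vis h hD, ?_⟩
  · have c1 : (Y \ T.R).card = if Y ⊆ T.R then 0 else 1 := by
      split_ifs with s
      · rw [sdiff_eq_empty_iff_subset.2 s, card_empty]
      · obtain ⟨u, u1, u2⟩ := not_subset.1 s
        exact le_antisymm (card_le_one.2 fun a p b k => by_contra fun ne =>
          h.Bd_nadj f.hq (f.late_Bd p) (f.late_Bd k)
            (f.cl.clq a (mem_sdiff.1 p).1 b (mem_sdiff.1 k).1 ne))
          (card_pos.2 ⟨u, mem_sdiff.2 ⟨u1, u2⟩⟩)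
    have c2 : (W \ T.R).card = if W = ∅ then 0 else if q ∈ Y then 2 else 1 := by
      have cW := f.cardW
      split_ifs at cW ⊢ with n m
      · simp [n]
      · rw [sdiff_eq_self_of_disjoint (disjoint_left.2 fun a p => f.tw_late p (f.tw_ne m p)), cW]
      · have qW := (mem_union.1 f.mem).resolve_left m
        have : W \ T.R = W.erase q := by
          ext a
          rw [mem_sdiff, mem_erase]
          exact ⟨fun k => ⟨fun z => k.2 (z ▸ f.hq), k.1⟩, fun k => ⟨k.2, f.tw_late k.2 k.1⟩⟩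
        have := card_erase_add_one qW
        rw [‹W \ T.R = _›]
        omega
    rw [union_sdiff_distrib, card_union_of_disjoint
      (f.disj.mono sdiff_subset sdiff_subset), c1, c2, add_comm]
  split_ifs with m
  · exact card_filter_le _ _
  have qW := (mem_union.1 f.mem).resolve_left m
  have k : ∃ a ∈ W, a ≠ q ∧ ¬ G.Adj q a := by
    obtain ⟨a, b, ab, n, e⟩ := f.cl.tw.resolve_left (ne_empty_of_mem qW)
    rw [e, mem_insert, mem_singleton] at qW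
    rcases qW with z | z
    exacts [⟨b, by simp [e], z ▸ ab.symm, z ▸ n⟩, ⟨a, by simp [e], z ▸ ab, fun p => n (z ▸ p).symm⟩]
  obtain ⟨a, a1, a2, a3⟩ := k
  exact card_lt_card ((ssubset_iff_of_subset (filter_subset _ _)).2
    ⟨a, mem_sdiff.2 ⟨mem_union_right _ a1, f.tw_late a1 a2⟩, fun p => a3 (mem_filter.1 p).2⟩)

/-- a child of a member of a largest cluster has three tails at most -/
theorem giver3 (h : IsC T) (f : Fam T Y W q) (hD : 14 ≤ D) (hy : y ∈ T.ch q) (m : y ∈ Y ∪ W)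
    (c : Y.card + tw W + 1 = D) (hx : x ∈ T.ch y) : (jm T x).card ≤ 3 := by
  obtain ⟨p1, p2, p3⟩ := T.mem_ch.1 hx
  have yY := (f.chq hy m).1
  have n := (f.giver h hD hy m hx).1
  by_cases o : x ∈ T.O y
  swap
  · simp [(h.Ch_pass p1 (.inr (p3 ▸ o))).1]
  have := h.jm_far hx o f.clq f.kreal (mem_insert_of_mem yY) (f.kout n) n (fun _ => f.sub)
    (f.kfar p1 n)
  have := f.mem_out h yY
  have := f.cardW2
  omega

end Fam

theorem IsC.gen (h : IsC T) (hy : y ∈ T.R) :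
    (Ch T y).card + i2 T y ≤ (jm T y).card + 3 + (T.Bd y ∩ T.R).card ∧
      (y = T.r ∨ y ∉ T.O (T.p y) → (Ch T y).card + i2 T y ≤ 2 + (T.Bd y ∩ T.R).card) := by
  have a := h.Ch_gen hy
  have b := card_tE (Ct := Cm T) (Use := O0 T) hy
  have c : i2 T y + (if T.ch y = ∅ ∧ y ≠ T.r then 1 else 0) ≤ 2 := by
    unfold i2
    by_cases l : T.ch y = ∅
    · rw [if_pos l]
      split_ifs <;> omega
    · rw [if_neg l, if_neg fun k => l k.1]
  refine ⟨by omega, fun k => ?_⟩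
  have t : T.tE (Cm T) (O0 T) y = ∅ := eq_empty_of_forall_notMem fun v p =>
    have p := (mem_tE.1 p).1.2.1.1
    k.elim p.1 fun k => k p.2
  rw [(h.Ch_pass hy k).1, t, card_empty] at a
  omega

theorem IsC.gv3_le (h : IsC T) (hD : 14 ≤ D) (hx : x ∈ T.R) : gv3 T x = 0 ∨
    gv3 T x = 1 ∧ (jm T x).card ≤ 7 ∨ gv3 T x = 3 ∧ (jm T x).card ≤ 6 ∨
      gv3 T x = 4 ∧ (jm T x).card ≤ 3 := by
  unfold gv3 nd3
  split_ifs with a b c d e
  exacts [.inl rfl, .inl rfl,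
    let ⟨_, _, _, f, k1, k2, k3⟩ := c
    .inr (.inr (.inr ⟨rfl, f.giver3 h hD k1 k2 k3 (T.mem_ch.2 ⟨hx, a, rfl⟩)⟩)),
    let ⟨_, _, _, f, k1, k2⟩ := d
    .inr (.inr (.inl ⟨rfl, (f.giver h hD k1 k2 (T.mem_ch.2 ⟨hx, a, rfl⟩)).2⟩)),
    .inr (.inl ⟨rfl, h.sparse_ch hD (T.p_mem x hx a) (fun Y W q f k => e.1 ⟨Y, W, q, f, k⟩) e.2
      (T.mem_ch.2 ⟨hx, a, rfl⟩)⟩), .inl rfl]

end Pool.Agent.Lib.MP_12eaff_co.FB
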