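import Pool.Agent.Lib.MP_12eaff_co.FC.Loc
import Pool.Agent.Lib.MP_12eaff_co.FC.Loc2
import Pool.Agent.Lib.MP_12eaff_co.FC.Evt

set_option autoImplicit false
set_option linter.unusedSectionVars false

namespace Pool.Agent.Lib.MP_12eaff_co.FB

open Finset Pool.Agent.Lib.MP_12eaff_co.BK Pool.Agent.Lib.MP_12eaff_co.Acc2
open scoped Classical

variable {V : Type} [Fintype V] {G : SimpleGraph V}
variable {T : Tr G 18} {Y W : Finset V} {q y : V} {m t k yl : ℕ}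

theorem arith3 {m t k yl c Q l u N F SX XQ Xq SB b : ℕ} (m2 : 2 ≤ m) (m5 : m ≤ 5) (t1 : t ≤ 1)
    (k1 : k ≤ t) (k2 : k + yl ≤ 1) (hA : c + Q + 1 + m + k + yl = 19) (hc : l + u = c)
    (hb : min (2 * (m + 1 + t - min (4 - yl) (m + 1)) + (c - 4))
      (31 + 4 * t - 2 * m - 2 * (k + yl) - c) ≤ b)
    (h1 : 2 * SX + u * (2 * (k + yl + (m + t - 3))) + l * b ≤
      2 * SB + 6 * l + 2 * N) (h3 : XQ ≤ Q * (12 + t + yl - k + (m - 4 - t)))
    (h4 : Xq ≤ 12 ∧ Xq + yl ≤ 12 + (m - 4)) (h5 : N ≤ u * (k + yl))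
    (h6 : F ≤ (t + k + yl) * (m + 1))
    (h7 : F + (m + 1) ≤ (t + k + yl) * (m + 1) ∨ N ≤ (yl + 2 * k) * 6) :
    SX + XQ + Xq + F ≤ SB + Q * 15 + 15 := by
  have : yl ≤ 1 - k := by omega
  have key : ∀ j, j ≤ b → l * j ≤ l * b := fun j p => Nat.mul_le_mul_left l p
  generalize l * b = z at *
  interval_cases m <;> interval_cases t <;> interval_cases k <;> interval_cases yl <;>
    simp only [Nat.reduceAdd, Nat.reduceSub, Nat.reduceMul] at h1 h3 h4 h5 h6 h7 hA hb <;>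
    (have : c ≤ 16 := by omega) <;>
    interval_cases c <;> (have := key _ hb; norm_num at this; omega)

/-- The numbers of a visited cluster. -/
structure Par (T : Tr G 18) (Y W : Finset V) (q : V) (m t k yl : ℕ) : Prop where
  m2 : 2 ≤ m
  m5 : m ≤ 5
  t1 : t ≤ 1
  k1 : k ≤ t
  k2 : k + yl ≤ 1
  ht : tw W = t
  hm : Y.card + m + t = 19
  hy : (if Y ⊆ T.R then 0 else 1) = yl
  hk : k = 1 → W ≠ ∅ ∧ q ∈ Y
  la : ((Y ∪ W) \ T.R).card = t + k + yl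
  hA : (T.R ∩ (Y ∪ W)).card + m + k + yl = 19
  l1 : (((Y ∪ W) \ T.R).filter (G.Adj q)).card ≤ yl + 2 * k

theorem Fam.par (h : IsC T) (f : Fam T Y W q) : ∃ m t k yl, Par T Y W q m t k yl := by
  have big := f.cl.big
  have small := f.cl.small
  obtain ⟨s1, s2, s3⟩ := f.shape h (by omega)
  have c1 := card_union_of_disjoint f.disj
  have c2 := f.cardW
  have c3 := card_inter_add_card_sdiff (Y ∪ W) T.R
  rw [inter_comm] at c3
  have c4 : W = ∅ → q ∈ Y := fun e => by simpa [e] using f.mem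
  refine ⟨19 - tw W - Y.card, tw W, if W ≠ ∅ ∧ q ∈ Y then 1 else 0, _, ?_, ?_, ?_, ?_, ?_, rfl,
    ?_, rfl, fun e => by_contra fun n => by simp only [if_neg n] at e; omega, ?_, ?_, ?_⟩ <;>
  by_cases a : W = ∅ <;> by_cases b : q ∈ Y <;> by_cases c : Y ⊆ T.R <;>
  simp only [tw, a, b, c, ne_eq, not_true, not_false_iff, if_true, if_false,
    and_true, and_false, forall_true_left] at * <;> omega

/-- What a vertex of the cluster `H` costs. -/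
noncomputable def X3 (T : Tr G 18) (H : Finset V) (y : V) : ℕ :=
  (Ch T y).card + i2 T y + px T y + gv3 T y + (Dq T y ∩ H).card

theorem Dq_le (H : Finset V) : (Dq T y ∩ H).card ≤ (T.Dr y ∩ H).card :=
  card_le_card (inter_subset_inter_right ((filter_subset _ _).trans sdiff_subset))

theorem Fam.nd_q (h : IsC T) (f : Fam T Y W q) : nd3 T q = 0 := by
  have n : ¬ InC T q := fun ⟨Y', W', q', f', k1, k2⟩ => by
    obtain ⟨rfl, rfl, -⟩ := f.uniq h (by omega) f' f.mem k2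
    obtain ⟨-, b, c⟩ := T.mem_ch.1 k1
    exact absurd (c ▸ f'.mem) (f.pq b)
  unfold nd3
  split_ifs with l c k
  · rfl
  · obtain ⟨Y', W', q', f', k1, k2, -⟩ := c
    exact absurd ⟨Y', W', q', f', k1, k2⟩ n
  · exact absurd ⟨Y, W, q, f, f.mem⟩ k.1
  · rfl

theorem Fam.c_cost (h : IsC T) (f : Fam T Y W q) (P : Par T Y W q m t k yl)
    (hy : y ∈ T.ch q ∩ (Y ∪ W)) :
    2 * X3 T (Y ∪ W) y + 2 * ((T.ch q ∩ (Y ∪ W)).erase y \ Ch T y).card +
      (if Loud T (Y ∪ W) y then min (2 * (m + 1 + t - min (4 - yl) (m + 1)) +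
        ((T.ch q ∩ (Y ∪ W)).card - 4)) (31 + 4 * t - 2 * m - 2 * (k + yl) -
          (T.ch q ∩ (Y ∪ W)).card) else 2 * (k + yl + (m + t - 3))) ≤
    2 * (15 + nd3 T y) + (((T.ch q ∩ (Y ∪ W)).erase y).filter
      fun r => r ∉ Ch T y ∨ y ∉ Ch T r).card +
      (if Loud T (Y ∪ W) y then 6 else 2 * (Dq T y ∩ (Y ∪ W)).card) := by
  obtain ⟨k1, k2⟩ := mem_inter.1 hy
  obtain ⟨yR, yr, yp⟩ := T.mem_ch.1 k1
  obtain ⟨m2, m5, t1, kt, ky, ht, hm, hl, -, la, hA, -⟩ := P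
  have a0 : px T y = 0 := if_neg fun e => e.2 (yp.symm ▸ (f.chq k1 k2).2)
  have a1 : gv3 T y = 0 := by rw [gv3, if_neg yr, yp, f.nd_q h]
  have a2 := f.c_vis h k1 k2
  obtain ⟨a3, a4, -⟩ := f.c_dr h (by omega) k1 k2
  have a5 := f.c_out h k1 k2
  have a6 := card_inter_add_card_sdiff (Ch T y) (Y ∪ W)
  have a7 := Dq_le (T := T) (y := y) (Y ∪ W)
  have a8 : ((T.ch q ∩ (Y ∪ W)).erase y \ Ch T y).card ≤ (((T.ch q ∩ (Y ∪ W)).erase y).filter
      fun r => r ∉ Ch T y ∨ y ∉ Ch T r).card := card_le_card fun r p =>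
    mem_filter.2 ⟨(mem_sdiff.1 p).1, .inl (mem_sdiff.1 p).2⟩
  have a9 : ((T.ch q ∩ (Y ∪ W)).erase y \ Ch T y).card + 1 ≤ (T.ch q ∩ (Y ∪ W)).card :=
    card_erase_add_one hy ▸ Nat.succ_le_succ (card_le_card sdiff_subset)
  have b0 : T.ch y = ∅ ∧ i2 T y = 0 ∨
      T.ch y ≠ ∅ ∧ i2 T y = 2 ∧ 3 ≤ nd3 T y ∧ (m = 2 → nd3 T y = 4) := by
    by_cases e : T.ch y = ∅
    · exact .inl ⟨e, if_pos e⟩
    refine .inr ⟨e, if_neg e, ?_, fun z => ?_⟩
    · rw [nd3, if_neg e, if_pos (show InC T y from ⟨Y, W, q, f, k1, k2⟩)]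
      split_ifs <;> omega
    · rw [nd3, if_neg e, if_pos (show InC2 T y from ⟨Y, W, q, f, k1, k2, by omega⟩)]
  unfold X3
  by_cases l : Loud T (Y ∪ W) y
  · have b1 := f.loud_cnt h k1 k2 l
    rw [if_pos l, if_pos l]
    by_cases s : jm T y ⊆ Y ∪ W
    · have b2 := f.c_one h k1 k2 s
      refine le_trans (Nat.add_le_add_left (min_le_left _ _) _) ?_
      rcases b0 with b0 | b0
      · rw [show (if T.ch y = ∅ ∧ Y ⊆ T.R then 1 else 0) = 1 - yl by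
          rw [← hl]; simp only [b0.1, true_and]; split_ifs <;> rfl] at b2
        omega
      · rw [if_neg fun z => b0.1 z.1] at b2
        omega
    · have b2 := f.c_two h (by omega) k1 k2 s
      refine le_trans (Nat.add_le_add_left (min_le_right _ _) _) ?_
      omega
  · have b1 := (Fam.mem_quiet h yR l).1
    have b2 := Fam.c_quiet h yR l
    rw [if_neg l, if_neg l]
    omega

theorem gv3_four (x : V) : gv3 T x ≤ 4 := by
  unfold gv3 nd3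
  split_ifs <;> omega

theorem px_eq (y : V) : px T y = 0 ∧ (y = T.r ∨ y ∈ T.O (T.p y)) ∨
    px T y = 4 ∧ y ∉ T.O (T.p y) := by
  unfold px
  split_ifs with e
  · exact .inr ⟨rfl, e.2⟩
  · exact .inl ⟨rfl, by tauto⟩

theorem Fam.e_cost (h : IsC T) (f : Fam T Y W q) (P : Par T Y W q m t k yl) (hy : y ∈ T.R)
    (mm : y ∈ Y ∪ W) (ne : y ≠ q) (np : T.p y ≠ q) :
    X3 T (Y ∪ W) y ≤ 12 + t + yl - k + (m - 4 - t) := by
  obtain ⟨m2, m5, t1, kt, ky, ht, hm, hl, hk, la, hA, -⟩ := P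
  obtain ⟨a1, a2, a3, a4⟩ := f.e_bd h (by omega) hy mm ne
  obtain ⟨a5, a6⟩ := h.gen hy
  have a7 := Dq_le (T := T) (y := y) (Y ∪ W)
  have a8 := h.gv3_le (by omega) hy
  have a9 : k = 1 → (T.Bd y ∩ T.R).card ≤ 1 ∧ (T.Bd y ∩ T.R ∩ (Y ∪ W)).card = 0 ∧
      (T.Dr y ∩ (Y ∪ W)).card ≤ 1 := fun z =>
    have := a4 (hk z).1 (hk z).2
    ⟨this.1, card_eq_zero.2 this.2.1, this.2.2⟩
  unfold X3
  rcases px_eq (T := T) y with ⟨b, c | c⟩ | ⟨b, c⟩
  · exact absurd c (f.vis y hy mm ne).2.2.1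
  · have := f.e_real h hy mm ne np c
    omega
  · have := a6 (.inr c)
    omega

theorem Fam.q_cost (h : IsC T) (f : Fam T Y W q) (P : Par T Y W q m t k yl) :
    X3 T (Y ∪ W) q ≤ 12 ∧ X3 T (Y ∪ W) q + yl ≤ 12 + (m - 4) := by
  obtain ⟨m2, m5, t1, kt, ky, ht, hm, hl, hk, la, hA, -⟩ := P
  have a1 := f.q_bd h (by omega)
  have a2 := f.owner h (by omega)
  obtain ⟨a5, a6⟩ := h.gen f.hq
  have a7 := Dq_le (T := T) (y := q) (Y ∪ W)
  have a8 := h.gv3_le (by omega) f.hq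
  rw [hl] at a1
  rw [show (if W = ∅ then 5 else 4) = 5 - t by rw [← ht, tw]; split_ifs <;> rfl] at a2
  unfold X3
  rcases px_eq (T := T) q with ⟨b, -⟩ | ⟨b, c⟩
  · omega
  · have := a6 (.inr c)
    omega

theorem IsC.free3 (h : IsC T) (hy : y ∈ T.R) (n : ¬ InH T y) :
    (Ch T y).card + i2 T y + px T y + gv3 T y ≤ 15 + nd3 T y := by
  have g := h.gv3_le (by omega) hy
  have a := h.Ch_le hy
  have s := h.sparse (by omega) hy fun Y W q f k => n ⟨Y, W, q, f, k⟩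
  rcases px_eq (T := T) y with ⟨b, -⟩ | ⟨b, c⟩
  · by_cases l : T.ch y = ∅
    · rw [if_pos l] at a
      omega
    rw [if_neg l] at a
    by_cases z : (jm T y).card + 7 = 18
    · have : 1 ≤ nd3 T y := by
        rw [nd3, if_neg l, if_pos (⟨n, z⟩ : _ ∧ _)]
        split_ifs <;> omega
      omega
    · omega
  · have := (h.Ch_pass hy (.inr c)).2.1
    omega

/-- Either a late vertex costs nothing outside, or the quiet members have few unpaid drops. -/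
theorem Fam.alt (h : IsC T) (f : Fam T Y W q) (P : Par T Y W q m t k yl) :
    ∑ e ∈ (Y ∪ W) \ T.R, fo T (Y ∪ W) e ≤ (t + k + yl) * (m + 1) ∧
    (∑ e ∈ (Y ∪ W) \ T.R, fo T (Y ∪ W) e + (m + 1) ≤ (t + k + yl) * (m + 1) ∨
      ∑ y ∈ (T.ch q ∩ (Y ∪ W)).filter fun y => ¬ Loud T (Y ∪ W) y, (Dq T y ∩ (Y ∪ W)).card ≤
        (yl + 2 * k) * 6) := by
  have a : ∀ e ∈ (Y ∪ W) \ T.R, fo T (Y ∪ W) e ≤ m + 1 := fun e p => by
    have := f.fo_le h p
    have := P.ht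
    have := P.hm
    omega
  refine ⟨P.la ▸ sum_le_card_nsmul _ _ _ a, ?_⟩
  by_cases z : ∃ e ∈ (Y ∪ W) \ T.R, fo T (Y ∪ W) e = 0
  · obtain ⟨e, p, z⟩ := z
    left
    rw [← P.la, ← sum_erase_add _ _ p, z, add_zero, ← card_erase_add_one p, add_mul, one_mul]
    exact Nat.add_le_add_right (sum_le_card_nsmul _ _ _ fun e k => a e (mem_of_mem_erase k)) _
  right
  refine le_trans ?_ (Nat.mul_le_mul_right 6 P.l1)
  refine le_trans ?_ (sum_le_card_nsmul _ (fun e => (((T.ch q ∩ (Y ∪ W)).filter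
    fun y => ¬ Loud T (Y ∪ W) y).filter fun y => e ∈ Dq T y).card) 6 fun e p => ?_)
  · simp only [card_filter (fun y => _ ∈ Dq T y)]
    rw [sum_comm]
    refine sum_le_sum fun y p => ?_
    rw [← card_filter]
    obtain ⟨p1, p2⟩ := mem_inter.1 (mem_filter.1 p).1
    refine card_le_card fun e k => ?_
    have d : e ∈ T.Dr y ∩ (Y ∪ W) :=
      inter_subset_inter_right ((filter_subset _ _).trans sdiff_subset) k
    exact mem_filter.2 ⟨mem_filter.2 ⟨f.Dr_late h (T.mem_ch.1 p1).1 d,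
      (f.c_dr h (by omega) p1 p2).2.2 e d⟩, (mem_inter.1 k).1⟩
  · rw [filter_filter]
    exact f.fo_ev h (mem_filter.1 p).1 (mem_filter.1 p).2 fun i => z ⟨e, (mem_filter.1 p).1, i⟩

theorem Fam.pool3 (h : IsC T) (f : Fam T Y W q) :
    ∑ y ∈ T.R ∩ (Y ∪ W), X3 T (Y ∪ W) y + ∑ e ∈ (Y ∪ W) \ T.R, fo T (Y ∪ W) e ≤
      ∑ y ∈ T.R ∩ (Y ∪ W), (15 + nd3 T y) := by
  obtain ⟨m, t, k, yl, P⟩ := f.par h
  obtain ⟨h6, h7⟩ := f.alt h P
  have h4 := f.q_cost h P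
  have s1 := sum_le_sum fun y p => f.c_cost h P (y := y) p
  have hA' := P.hA
  have h5 : ∑ y ∈ (T.ch q ∩ (Y ∪ W)).filter fun y => ¬ Loud T (Y ∪ W) y,
      (Dq T y ∩ (Y ∪ W)).card ≤
      ((T.ch q ∩ (Y ∪ W)).filter fun y => ¬ Loud T (Y ∪ W) y).card * (k + yl) :=
    sum_le_card_nsmul _ _ _ fun y p => by
      obtain ⟨p1, p2⟩ := mem_inter.1 (mem_filter.1 p).1
      have := (f.c_dr h (by omega) p1 p2).1
      have := Dq_le (T := T) (y := y) (Y ∪ W)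
      have := P.la
      have := P.ht
      omega
  have e3 := fun y a b c d => f.e_cost h P (y := y) a b c d
  set H := Y ∪ W with hH
  set C := T.ch q ∩ H with hC
  set A := T.R ∩ H with hA
  set Q := (A \ T.ch q).erase q with hQ
  have qq : q ∉ T.ch q := fun k => lt_irrefl _ (Tr.d_ch k)
  have qA : q ∈ A \ T.ch q := mem_sdiff.2 ⟨mem_inter.2 ⟨f.hq, f.mem⟩, qq⟩
  have eC : A ∩ T.ch q = C := by
    ext x
    simp only [hA, hC, mem_inter]
    exact ⟨fun k => ⟨k.2, k.1.2⟩, fun k => ⟨⟨(T.mem_ch.1 k.1).1, k.2⟩, k.1⟩⟩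
  have sp : ∀ g : V → ℕ, ∑ y ∈ A, g y = ∑ y ∈ C, g y + ∑ y ∈ Q, g y + g q := fun g => by
    rw [← sum_inter_add_sum_sdiff A (T.ch q), eC, add_assoc, hQ, sum_erase_add _ _ qA]
  have cA : A.card = C.card + Q.card + 1 := by simpa using sp fun _ => 1
  have h3 : ∑ y ∈ Q, X3 T H y ≤ Q.card * (12 + t + yl - k + (m - 4 - t)) :=
    sum_le_card_nsmul _ _ _ fun y p => by
      obtain ⟨k1, k2⟩ := mem_erase.1 p
      obtain ⟨k3, k4⟩ := mem_sdiff.1 k2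
      obtain ⟨k5, k6⟩ := mem_inter.1 k3
      exact e3 y k5 k6 k1 fun e => k4 (T.mem_ch.2 ⟨k5, (f.vis y k5 k6 k1).2.2.1, e⟩)
  have h8 : Q.card * 15 ≤ ∑ y ∈ Q, (15 + nd3 T y) :=
    card_nsmul_le_sum _ _ _ fun y _ => Nat.le_add_right _ _
  have s3 := dbl_cnt C C Subset.rfl (Ch T)
  rw [sum_add_distrib, sum_add_distrib, sum_add_distrib, sum_add_distrib, sum_ite,
    sum_ite] at s1
  simp only [sum_const, smul_eq_mul] at s1
  rw [← mul_sum, ← mul_sum, ← mul_sum, ← mul_sum] at s1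
  have := arith3 (SX := ∑ y ∈ C, X3 T H y) (SB := ∑ y ∈ C, (15 + nd3 T y)) P.m2 P.m5 P.t1 P.k1
    P.k2 (cA ▸ hA') (card_filter_add_card_filter_not fun y => Loud T H y) le_rfl (by omega) h3 h4 h5 h6 h7
  rw [sp, sp]
  omega

theorem nd_gv3 (T : Tr G 18) : ∑ y ∈ T.R, nd3 T y ≤ ∑ y ∈ T.R, gv3 T y := by
  refine le_trans (sum_le_sum fun y _ => ?_) (T.sum_sum_ch fun x => nd3 T (T.p x)).le
  by_cases e : T.ch y = ∅
  · simp [nd3, e]
  · obtain ⟨x, k⟩ := nonempty_iff_ne_empty.2 e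
    refine le_trans ?_ (single_le_sum (fun _ _ => Nat.zero_le _) k)
    rw [(T.mem_ch.1 k).2.2]

/-- The foreign cost of a cluster, counted at the late vertices. -/
theorem Fam.fo_sum (h : IsC T) (f : Fam T Y W q) :
    ∑ v ∈ T.R, (Dq T v ∩ (Y ∪ W)).card +
      ∑ e ∈ ((Late T).filter T.Vev) ∩ (Y ∪ W), (nb G e ∩ T.Dm).card ≤
    ∑ v ∈ T.R ∩ (Y ∪ W), (Dq T v ∩ (Y ∪ W)).card + ∑ e ∈ (Y ∪ W) \ T.R, fo T (Y ∪ W) e := by
  rw [← sum_inter_add_sum_sdiff T.R (Y ∪ W), add_assoc]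
  unfold fo
  rw [sum_add_distrib]
  refine Nat.add_le_add_left (add_le_add ?_ ?_) _
  · simp only [card_filter (fun v => _ ∈ T.Dr v)]
    rw [sum_comm]
    refine sum_le_sum fun v p => (Dq_le _).trans ?_
    rw [← card_filter]
    exact card_le_card fun e k =>
      mem_filter.2 ⟨f.Dr_late h (mem_sdiff.1 p).1 k, (mem_inter.1 k).1⟩
  · rw [← sum_filter]
    exact sum_le_sum_of_subset fun e k => mem_filter.2 ⟨mem_sdiff.2 ⟨(mem_inter.1 k).2,
      (mem_filter.1 (mem_filter.1 (mem_inter.1 k).1).1).2.1⟩, (mem_filter.1 (mem_inter.1 k).1).2⟩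

theorem IsC.ledger3 (h : IsC T) :
    ∑ y ∈ T.R, ((Ch T y).card + i2 T y + px T y + (Dq T y).card) +
      ∑ e ∈ (Late T).filter T.Vev, (nb G e ∩ T.Dm).card ≤ ∑ _y ∈ T.R, (18 - 3) := by
  set F := univ.filter fun p : Finset V × Finset V => ∃ q, Fam T p.1 p.2 q with hF
  have mF : ∀ y, y ∈ F.biUnion (fun p => p.1 ∪ p.2) ↔ InH T y := fun y => by
    simp only [hF, mem_biUnion, mem_filter, mem_univ, true_and, InH]
    exact ⟨fun ⟨p, ⟨q, f⟩, k⟩ => ⟨_, _, q, f, k⟩, fun ⟨Y, W, q, f, k⟩ => ⟨(Y, W), ⟨q, f⟩, k⟩⟩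
  have d : (F : Set (Finset V × Finset V)).PairwiseDisjoint fun p => p.1 ∪ p.2 :=
    fun p a p' b ne => disjoint_left.2 fun u k k' => by
      obtain ⟨q, f⟩ := (mem_filter.1 a).2
      obtain ⟨q', f'⟩ := (mem_filter.1 b).2
      obtain ⟨e, e', -⟩ := f.uniq h (by omega) f' k k'
      exact ne (Prod.ext e e')
  have s := sum_split F _ d
  have a1 := sum_le_sum (s := F) fun p a => (mem_filter.1 a).2.choose_spec.pool3 h
  have a0 := sum_le_sum (s := F) fun p a => (mem_filter.1 a).2.choose_spec.fo_sum h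
  have a2 := sum_le_sum (s := T.R \ F.biUnion fun p => p.1 ∪ p.2) fun y k =>
    h.free3 (mem_sdiff.1 k).1 fun z => (mem_sdiff.1 k).2 ((mF y).2 z)
  have a3 := s ((Late T).filter T.Vev) fun e => (nb G e ∩ T.Dm).card
  rw [sum_eq_zero (s := (Late T).filter T.Vev \ _) fun e k => absurd
    ((mF e).2 (mem_filter.1 (mem_filter.1 (mem_sdiff.1 k).1).1).2.2) (mem_sdiff.1 k).2] at a3
  have a4 : ∑ y ∈ T.R, (Dq T y).card ≤ ∑ p ∈ F, ∑ v ∈ T.R, (Dq T v ∩ (p.1 ∪ p.2)).card := by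
    rw [sum_comm]
    refine sum_le_sum fun v hv => le_trans (card_le_card fun u k => ?_) card_biUnion_le
    obtain ⟨k1, k2⟩ := mem_sdiff.1 (mem_filter.1 k).1
    obtain ⟨p, a, b⟩ := mem_biUnion.1 ((mF u).2 (h.drop v hv u k1 k2).2)
    exact mem_biUnion.2 ⟨p, a, mem_inter.2 ⟨k, b⟩⟩
  have a5 := nd_gv3 T
  have a6 := s T.R fun y => (Ch T y).card + i2 T y + px T y + gv3 T y
  have a7 := s T.R fun y => 15 + nd3 T y
  have a8 : ∑ p ∈ F, ∑ y ∈ T.R ∩ (p.1 ∪ p.2), X3 T (p.1 ∪ p.2) y =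
      ∑ p ∈ F, ∑ y ∈ T.R ∩ (p.1 ∪ p.2), ((Ch T y).card + i2 T y + px T y + gv3 T y) +
      ∑ p ∈ F, ∑ y ∈ T.R ∩ (p.1 ∪ p.2), (Dq T y ∩ (p.1 ∪ p.2)).card := by
    rw [← sum_add_distrib]
    exact sum_congr rfl fun p _ => sum_add_distrib
  rw [sum_add_distrib] at a1 a6 a7 ⊢
  rw [sum_add_distrib, sum_add_distrib] at a0
  norm_num only at a7 ⊢
  omega

end Pool.Agent.Lib.MP_12eaff_co.FB
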